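import Pool.Agent.Lib.MP_45c83f_lc.NuFin
import Pool.Agent.Lib.MP_45c83f_lc.TheoremA

set_option autoImplicit false

/-!
# The `∃∀∃`-theory of the lattice of r.e. sets is decidable
-/

namespace Pool.Agent.Results.MP_45c83f_lc.EAEDecidable

open Pool.Agent.Lib.MP_45c83f_lc

/-- The Goedel numbering of the `∃∀∃`-sentences of `L(⊆, ∪, ∩, 0, 1)` is injective, and the set
of the Goedel numbers of the `∃∀∃`-sentences which are true in the lattice of r.e. sets is
computable. -/
theorem result : Function.Injective Sentence.code ∧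
    ComputablePred fun c : ℕ => ∃ S : Sentence, S.code = c ∧ S.Holds := by
  constructor
  · rintro ⟨n, m, k, φ, hφ⟩ ⟨n', m', k', φ', hφ'⟩ h
    simp only [Sentence.code, Nat.pair_eq_pair] at h
    obtain ⟨h1, h2, h3, h4⟩ := h
    have h5 := Dec.fm_code_inj h4
    subst h1 h2 h3 h5
    rfl
  · exact Dec.computable_of_crit fun n m k L P => L.theoremA P

end Pool.Agent.Results.MP_45c83f_lc.EAEDecidable
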